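import Mathlib
import Pool.Agent.Helper809.Cub.Chain
import Pool.Agent.Y781.CB.A
import Pool.Agent.Y781.CB.N.NumFinal
import Pool.Agent.Y781.CB.N.J24

set_option autoImplicit false

open Polynomial

namespace Pool.Agent.Results.MP_cd2e96_co.EffectiveRealRoot

/-- `p` is the chromatic polynomial of `G`: for every natural number `k` the value `p(k)` is the
number of proper vertex colourings of `G` with colours from a set of `k` colours. -/
def IsChromaticPoly {V : Type} (G : SimpleGraph V) (p : ℤ[X]) : Prop :=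
  ∀ k : ℕ, p.eval (k : ℤ) = Nat.card (G.Coloring (Fin k))

/-- The set of moduli `|z|` of the chromatic roots `z ∈ ℂ` of `G`. -/
def rootModuli {V : Type} (G : SimpleGraph V) : Set ℝ :=
  {r : ℝ | ∃ (p : ℤ[X]) (z : ℂ), IsChromaticPoly G p ∧ aeval z p = 0 ∧ r = ‖z‖}

/-- `ρ(G)`, the largest modulus of a chromatic root of `G`. -/
noncomputable def rho {V : Type} (G : SimpleGraph V) : ℝ := sSup (rootModuli G)

theorem coloring_card {V : Type} (G : SimpleGraph V) (k : ℕ) :
    Nat.card (G.Coloring (Fin k)) = ChrRoots.col G.Adj k := by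
  unfold ChrRoots.col
  refine Nat.card_congr
    { toFun := fun c => ⟨fun v => c v, fun u v h => c.valid h⟩
      invFun := fun s => SimpleGraph.Coloring.mk s.1 (fun {u v} h => s.2 u v h)
      left_inv := fun c => by ext v; rfl
      right_inv := fun s => by ext v; rfl }

open Classical in
/-- the integer polynomial behind `ChrRoots.P` -/
noncomputable def chrPoly {V : Type} [Fintype V] (G : SimpleGraph V) : ℤ[X] :=
  ∑ A ∈ (Finset.univ.filter (fun e : V × V => G.Adj e.1 e.2)).powerset,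
    (-1) ^ A.card * X ^ (Nat.card (Quot (fun u v : V => (u, v) ∈ A)))

theorem aeval_chrPoly {V : Type} [Fintype V] (G : SimpleGraph V) (x : ℝ) :
    aeval x (chrPoly G) = ChrRoots.P G.Adj x := by
  unfold chrPoly ChrRoots.P
  rw [map_sum]
  refine Finset.sum_congr rfl (fun A _ => ?_)
  simp

theorem isChromaticPoly_chrPoly {V : Type} [Fintype V] (G : SimpleGraph V) :
    IsChromaticPoly G (chrPoly G) := by
  intro k
  have h := aeval_chrPoly G (k : ℝ)
  rw [ChrRoots.P_nat] at h
  have h2 : aeval (k : ℝ) (chrPoly G) = (((chrPoly G).eval (k : ℤ) : ℤ) : ℝ) := by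
    rw [Polynomial.aeval_def, Polynomial.eval₂_eq_eval_map]
    have : (k : ℝ) = (Int.castRingHom ℝ) (k : ℤ) := by simp
    rw [this, algebraMap_int_eq, Polynomial.eval_map, Polynomial.eval₂_at_apply]
    rfl
  rw [h2] at h
  rw [coloring_card]
  exact_mod_cast h

theorem IsChromaticPoly.unique {V : Type} {G : SimpleGraph V} {p p' : ℤ[X]}
    (h : IsChromaticPoly G p) (h' : IsChromaticPoly G p') : p = p' := by
  refine Polynomial.eq_of_infinite_eval_eq p p' ?_
  refine Set.infinite_of_injective_forall_mem (f := fun k : ℕ => (k : ℤ)) Nat.cast_injective ?_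
  intro k
  show p.eval (k : ℤ) = p'.eval (k : ℤ)
  rw [h k, h' k]

theorem rootModuli_eq {V : Type} {G : SimpleGraph V} {p : ℤ[X]} (h : IsChromaticPoly G p) :
    rootModuli G = (fun z : ℂ => ‖z‖) '' {z | aeval z p = 0} := by
  ext r
  constructor
  · rintro ⟨p', z, h1, h2, rfl⟩
    rw [h1.unique h] at h2
    exact ⟨z, h2, rfl⟩
  · rintro ⟨z, hz, rfl⟩
    exact ⟨p, z, h, hz, rfl⟩

theorem rootModuli_finite {V : Type} [Fintype V] (G : SimpleGraph V) (hp : chrPoly G ≠ 0) :
    (rootModuli G).Finite := by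
  rw [rootModuli_eq (isChromaticPoly_chrPoly G)]
  apply Set.Finite.image
  refine Set.Finite.subset (Multiset.finite_toSet ((chrPoly G).aroots ℂ)) ?_
  intro z hz
  exact (Polynomial.mem_aroots).2 ⟨hp, hz⟩

theorem chrPoly_ne_zero {V : Type} [Fintype V] (G : SimpleGraph V) : chrPoly G ≠ 0 := by
  intro h0
  have h := isChromaticPoly_chrPoly G (Fintype.card V)
  rw [h0, Polynomial.eval_zero] at h
  have hne : Nonempty (G.Coloring (Fin (Fintype.card V))) :=
    ⟨SimpleGraph.Coloring.mk (Fintype.equivFin V) (fun {u v} huv heq =>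
      huv.ne ((Fintype.equivFin V).injective heq))⟩
  have : Finite (G.Coloring (Fin (Fintype.card V))) :=
    Finite.of_injective (fun c => (fun v => c v)) (fun c c' hcc => by
      ext v; exact congrArg Fin.val (congrFun hcc v))
  have hpos : 0 < Nat.card (G.Coloring (Fin (Fintype.card V))) := Nat.card_pos
  have : (0 : ℤ) < (Nat.card (G.Coloring (Fin (Fintype.card V))) : ℤ) := by exact_mod_cast hpos
  omega

theorem isGreatest_rho {V : Type} [Fintype V] [Nonempty V] (G : SimpleGraph V) :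
    IsGreatest (rootModuli G) (rho G) := by
  have hfin := rootModuli_finite G (chrPoly_ne_zero G)
  have hne : (rootModuli G).Nonempty := by
    refine ⟨‖(0 : ℂ)‖, chrPoly G, 0, isChromaticPoly_chrPoly G, ?_, rfl⟩
    have h := isChromaticPoly_chrPoly G 0
    have hc : Nat.card (G.Coloring (Fin 0)) = 0 := by
      have : IsEmpty (G.Coloring (Fin 0)) := ⟨fun c => (c (Classical.arbitrary V)).elim0⟩
      exact Nat.card_of_isEmpty
    rw [hc] at h
    have h1 : (chrPoly G).coeff 0 = 0 := by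
      rw [Polynomial.coeff_zero_eq_eval_zero]
      simpa using h
    rw [Polynomial.aeval_def, Polynomial.eval₂_at_zero, h1, map_zero]
  exact ⟨hne.csSup_mem hfin, fun r hr => le_csSup hfin.bddAbove hr⟩

theorem root_of_neg {V : Type} [Fintype V] (r : V → V → Prop) (q : ℝ) (hq : q ≤ 3)
    (h : ChrRoots.P r q < 0) :
    ∃ x : ℝ, q < x ∧ x ≤ 3 ∧ ChrRoots.P r x = 0 := by
  obtain ⟨p, hp⟩ := ChrRoots.isPoly_P r
  have h3 : 0 ≤ ChrRoots.P r 3 := by
    have := ChrRoots.J01.P_nat r 3
    norm_num at this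
    rw [this]
    positivity
  have hcont : ContinuousOn (ChrRoots.P r) (Set.Icc q 3) := by
    have : ChrRoots.P r = fun x => p.eval x := funext hp
    rw [this]
    exact p.continuous.continuousOn
  have := intermediate_value_Icc hq hcont ⟨h.le, h3⟩
  obtain ⟨x, ⟨hx1, hx2⟩, hx⟩ := this
  refine ⟨x, lt_of_le_of_ne hx1 ?_, hx2, hx⟩
  rintro rfl
  rw [hx] at h
  exact lt_irrefl _ h

theorem exists_pairing_le :
    ∃ k, k ≤ 1236 ∧ k ≠ 4 ∧ ∃ f : ChrRoots.CP (Fin k), ChrRoots.Conn f ∧
      ChrRoots.P (ChrRoots.rel f) (44 / 15) < 0 := by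
  have h1 : ChrRoots.T (Fin 1236) (44 / 15) < 0 := by
    rw [ChrRoots.T_eq, Fintype.card_fin]
    have h := ChrRoots.Sr_negA
    have : (0 : ℝ) < (Nat.factorial 1236 : ℝ) := by exact_mod_cast Nat.factorial_pos _
    exact mul_neg_of_pos_of_neg this h
  have h4 : 0 ≤ ChrRoots.T (Fin 4) (44 / 15) - 3 * ChrRoots.T (Fin 2) (44 / 15) ^ 2 := by
    rw [ChrRoots.T_eq, ChrRoots.T_eq, Fintype.card_fin, Fintype.card_fin]
    have h := ChrRoots.J24A.Sr_small
    norm_num [Nat.factorial] at h ⊢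
    linarith
  exact Y781.CB.exists_conn_le (44 / 15) 1236 (fun n => ChrRoots.T_rec n (44 / 15)) h1 h4

theorem exists_cubic_le :
    ∃ (m : ℕ) (G : SimpleGraph (Fin m)), m ≤ 7416 ∧ m ≠ 4 ∧ G.Connected ∧
      (∀ v, Nat.card (G.neighborSet v) = 3) ∧
      ∃ x : ℝ, 44 / 15 < x ∧ x ≤ 3 ∧ ChrRoots.P G.Adj x = 0 := by
  obtain ⟨k, hk0, hk, f, hf, hneg⟩ := exists_pairing_le
  obtain ⟨G, hG, hd, hd2, hP⟩ := Y781.CB.graph_of_pairing k
    (fun W _ r => ChrRoots.isPoly_P r) (fun f g hf hg h x => hf.eq_of_nat hg h x) f hf (44 / 15)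
    (by norm_num) hneg
  obtain ⟨x, hx, hx3, hroot⟩ := root_of_neg G.Adj (44 / 15) (by norm_num) hP
  obtain ⟨m, G', hmk, hm, hG', hd', hP'⟩ := Y781.CB.make_cubic_le
    (fun V _ _ G hc v x hx hr => ChrRoots.J19.gadget_aux V G (fun W _ r N => ChrRoots.J01.P_nat r N)
      (fun W _ r => ChrRoots.isPoly_P r) (fun f g hf hg h x => hf.eq_of_nat hg h x) hc v x hx hr)
    k G hG hd hk x (by linarith) hroot
  refine ⟨m, G', ?_, hm, hG', hd', x, hx, hx3, hP'⟩
  have h1 : ∑ v : Fin k, (3 - Nat.card (G.neighborSet v)) ≤ ∑ _v : Fin k, 1 :=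
    Finset.sum_le_sum fun v _ => by have := hd2 v; omega
  rw [Finset.sum_const, Finset.card_univ, Fintype.card_fin, smul_eq_mul, mul_one] at h1
  omega

/-- Disproof of Royle's conjecture on the largest moduli of chromatic roots of connected cubic
graphs, effective form with a real root and a larger constant. Every finite graph has a unique
chromatic polynomial, and there is a connected 3-regular graph `G` with at most `7416` vertices,
isomorphic neither to `K_4` nor to `K_{3,3}`, whose chromatic polynomial has a real root `x` with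
`44/15 < x ≤ 3`; in particular `ρ(K_{3,3}) < 29/10 < 44/15 < ρ(G)`. -/
theorem result :
    (∀ (n : ℕ) (G : SimpleGraph (Fin n)), ∃! p : ℤ[X], IsChromaticPoly G p) ∧
    ∃ (n : ℕ) (G : SimpleGraph (Fin n)), n ≤ 7416 ∧ G.Connected ∧
      (∀ v : Fin n, Nat.card (G.neighborSet v) = 3) ∧
      ¬ Nonempty (G ≃g (⊤ : SimpleGraph (Fin 4))) ∧
      ¬ Nonempty (G ≃g completeBipartiteGraph (Fin 3) (Fin 3)) ∧
      IsGreatest (rootModuli (completeBipartiteGraph (Fin 3) (Fin 3)))
        (rho (completeBipartiteGraph (Fin 3) (Fin 3))) ∧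
      IsGreatest (rootModuli G) (rho G) ∧
      rho (completeBipartiteGraph (Fin 3) (Fin 3)) < 29 / 10 ∧ 44 / 15 < rho G ∧
      ∃ x : ℝ, 44 / 15 < x ∧ x ≤ 3 ∧ ∀ p : ℤ[X], IsChromaticPoly G p → aeval x p = 0 := by
  refine ⟨fun n G => ⟨chrPoly G, isChromaticPoly_chrPoly G, fun p hp =>
    hp.unique (isChromaticPoly_chrPoly G)⟩, ?_⟩
  obtain ⟨m, G, hmle, hm, hG, hd, x, hx, hx3, hroot⟩ := exists_cubic_le
  have hx29 : (29 / 10 : ℝ) < x := by linarith
  have : Nonempty (Fin m) := hG.nonempty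
  have hgG := isGreatest_rho G
  have hgK := isGreatest_rho (completeBipartiteGraph (Fin 3) (Fin 3))
  refine ⟨m, G, hmle, hG, hd, ?_, ?_, hgK, hgG, ?_, ?_, ?_⟩
  · rintro ⟨e⟩
    have := Fintype.card_congr e.toEquiv
    simp only [Fintype.card_fin] at this
    exact hm this
  · rintro ⟨e⟩
    have h1 := ChrRoots.J14.P_congr e.toEquiv G.Adj
      (completeBipartiteGraph (Fin 3) (Fin 3)).Adj (fun u v => (e.map_adj_iff).symm) x
    rw [hroot, ChrRoots.P_K33] at h1
    have h2 := ChrRoots.J22.K33_pos x hx29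
    linarith
  · obtain ⟨p, z, hp, hz, hr⟩ := hgK.1
    rw [hr]
    apply ChrRoots.J22.K33_root_bound
    have hq : IsChromaticPoly (completeBipartiteGraph (Fin 3) (Fin 3))
        (X * (X - 1) * (X ^ 4 - 8 * X ^ 3 + 28 * X ^ 2 - 47 * X + 31) : ℤ[X]) := by
      intro k
      have h := ChrRoots.P_K33 (k : ℝ)
      rw [ChrRoots.P_nat, ← coloring_card] at h
      have h2 : ((Nat.card ((completeBipartiteGraph (Fin 3) (Fin 3)).Coloring (Fin k)) : ℤ) : ℝ) =
          (((k : ℤ) * ((k : ℤ) - 1) * ((k : ℤ) ^ 4 - 8 * (k : ℤ) ^ 3 + 28 * (k : ℤ) ^ 2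
            - 47 * (k : ℤ) + 31) : ℤ) : ℝ) := by
        push_cast
        exact h
      have h3 := Int.cast_injective (α := ℝ) h2
      rw [h3]
      simp
    rw [hp.unique hq] at hz
    simp only [map_mul, map_sub, map_add, map_pow, aeval_X, map_one, map_ofNat] at hz
    exact hz
  · have hmem : x ∈ rootModuli G := by
      refine ⟨chrPoly G, (x : ℂ), isChromaticPoly_chrPoly G, ?_, ?_⟩
      · have h := aeval_chrPoly G x
        rw [hroot] at h
        have h2 : aeval (algebraMap ℝ ℂ x) (chrPoly G) = algebraMap ℝ ℂ (aeval x (chrPoly G)) :=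
          Polynomial.aeval_algebraMap_apply ℂ x (chrPoly G)
        rw [h, map_zero] at h2
        exact h2
      · rw [Complex.norm_real, Real.norm_eq_abs, abs_of_pos (by linarith)]
    have := hgG.2 hmem
    linarith
  · refine ⟨x, hx, hx3, fun p hp => ?_⟩
    rw [hp.unique (isChromaticPoly_chrPoly G), aeval_chrPoly, hroot]

end Pool.Agent.Results.MP_cd2e96_co.EffectiveRealRoot
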